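import Pool.Agent.Helper68.VN.GoalsN

/-!
# Project HC, theorem PG (MP_a41896_nt), packet ROWB: a vanishing row is a relation of small height
-/

set_option autoImplicit false

open MvPolynomial

namespace Pool.Agent.Helper45.VN

open Height
open Pool.Agent.Helper92.Ru Pool.Agent.Helper42.SG
open Pool.Agent.Helper68.VN

noncomputable section

section

variable {K : Type} [Field K] {σ : Type} [Fintype σ] {δ : ℕ}

/-- the exponent of a monomial -/
def expo (β : σ → Fin δ) : σ →₀ ℕ := Finsupp.equivFunOnFinite.symm fun i => (β i : ℕ)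

theorem expo_apply (β : σ → Fin δ) (i : σ) : expo β i = (β i : ℕ) := rfl

theorem expo_inj {β β' : σ → Fin δ} (h : expo β = expo β') : β = β' := by
  funext i
  apply Fin.ext
  have h1 := DFunLike.congr_fun h i
  rwa [expo_apply, expo_apply] at h1

variable [DecidableEq σ]

/-- the polynomial of a row -/
def rowF (b : (σ → Fin δ) → K) : MvPolynomial σ K := ∑ β, monomial (expo β) (b β)

theorem coeff_rowF (b : (σ → Fin δ) → K) (β : σ → Fin δ) : coeff (expo β) (rowF b) = b β := by
  classical
  unfold rowF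
  rw [coeff_sum, Finset.sum_eq_single β]
  · rw [coeff_monomial, if_pos rfl]
  · intro β' _ h
    rw [coeff_monomial, if_neg fun h' => h (expo_inj h')]
  · intro h
    exact absurd (Finset.mem_univ β) h

theorem supp_rowF (b : (σ → Fin δ) → K) {m : σ →₀ ℕ} (hm : m ∈ (rowF b).support) :
    ∃ β : σ → Fin δ, m = expo β := by
  classical
  rw [mem_support_iff] at hm
  by_contra h
  push Not at h
  apply hm
  unfold rowF
  rw [coeff_sum]
  refine Finset.sum_eq_zero fun β _ => ?_
  rw [coeff_monomial, if_neg (fun h' => h β h'.symm)]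

theorem eval_rowF (b : (σ → Fin δ) → K) (x : σ → K) :
    eval x (rowF b) = ∑ β, b β * ∏ i, x i ^ (β i).val := by
  unfold rowF
  rw [map_sum]
  refine Finset.sum_congr rfl fun β _ => ?_
  rw [eval_monomial, Finsupp.prod_fintype]
  · rfl
  · intro i
    exact pow_zero _

end

theorem t_ROWB (h : Pool.Agent.Helper42.SG.HHO) : ROWB := by
  intro K _ _ σ _ _ n M δ e c A x0 hc hA hint hh hrow
  obtain ⟨⟨α, β0⟩, hαβ⟩ := Function.ne_iff.1 hc
  have hαβ' : c (α, β0) ≠ 0 := hαβ
  have hF0 : coeff (expo β0) (rowF fun β => c (α, β)) ≠ 0 := by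
    rw [coeff_rowF]
    exact hαβ'
  refine ⟨rowF fun β => c (α, β), ?_, ?_, ?_, ?_⟩
  · intro h0
    rw [h0, coeff_zero] at hF0
    exact hF0 rfl
  · intro i
    rw [degreeOf_le_iff]
    intro m hm
    obtain ⟨β, rfl⟩ := supp_rowF _ hm
    rw [expo_apply]
    have := (β i).2
    omega
  · rw [eval_rowF]
    exact hrow α
  · have hmem : expo β0 ∈ (rowF fun β => c (α, β)).support := mem_support_iff.2 hF0
    have key : ∀ m : (rowF fun β => c (α, β)).support, ∃ β,
        coeff m.1 (rowF fun β => c (α, β)) = c (α, β) := by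
      intro m
      obtain ⟨β, hβ⟩ := supp_rowF _ m.2
      exact ⟨β, by rw [hβ, coeff_rowF]⟩
    refine h K _ (fun m : (rowF fun β => c (α, β)).support => coeff m.1 (rowF fun β => c (α, β)))
      A ?_ hA ?_ ?_
    · intro h1
      exact hF0 (congrFun h1 ⟨_, hmem⟩)
    · intro m
      obtain ⟨β, hβ⟩ := key m
      show IsIntegral ℤ (coeff m.1 (rowF fun β => c (α, β)))
      rw [hβ]
      exact hint _
    · intro m
      obtain ⟨β, hβ⟩ := key m
      show NumberField.house (coeff m.1 (rowF fun β => c (α, β))) ≤ _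
      rw [hβ]
      exact hh _

end

end Pool.Agent.Helper45.VN
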